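import Pool.Agent.Lib.H8.Om1

/-!
A third of an Omega-number is strictly below it for reductions with use `n + c`.
-/

namespace Pool.Agent.Results.MP_a2e505_lc.SwStrict

open MeasureTheory ENNReal Filter Pool.Agent.Lib.H8 Arith CList Qm Rnd Kc Om Finset Classical

/-- Bit `n` of `A` is computed from `n` and the first `n + c` bits of `B`. -/
def SW (A B : ℕ → Bool) : Prop :=
  ∃ Γ : List Bool × ℕ →. Bool, Partrec Γ ∧ ∃ c, ∀ n, A n ∈ Γ (pr B (n + c), n)

/-- Long division by three. -/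
def D (ω : ℕ → Bool) (m : ℕ) : Bool := decide (num (pr ω (m + 1)) / 3 % 2 = 1)

lemma D_num (ω : ℕ → Bool) (s : ℕ) : num (pr (D ω) s) = num (pr ω s) / 3 := by
  induction s with
  | zero => simp [pr, num]
  | succ s ih =>
    have := (ω s).toNat_le
    rw [num_succ, ih, D, num_succ]
    by_cases h : (2 * num (pr ω s) + (ω s).toNat) / 3 % 2 = 1 <;> simp [h] <;> omega

lemma D_val (ω : ℕ → Bool) : val (D ω) = val ω / 3 := by
  refine tendsto_nhds_unique (val_lim _) (((val_lim ω).div_const 3).congr_dist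
    (squeeze_zero (fun _ => dist_nonneg) (fun s => ?_)
      (tendsto_pow_atTop_nhds_zero_of_lt_one (r := (2⁻¹ : ℝ)) (by norm_num) (by norm_num))))
  have h1 : (3 * (num (pr ω s) / 3 : ℕ) : ℝ) ≤ num (pr ω s) := by
    exact_mod_cast Nat.mul_div_le _ _
  have h2 : (num (pr ω s) : ℝ) ≤ 3 * (num (pr ω s) / 3 : ℕ) + 3 := by
    exact_mod_cast (by omega : num (pr ω s) ≤ 3 * (num (pr ω s) / 3) + 3)
  rw [D_num, Real.dist_eq, div_right_comm, ← sub_div, abs_div, inv_pow, abs_of_pos (a := 2 ^ s)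
    (by positivity), inv_eq_one_div]
  gcongr
  rw [abs_le]
  constructor <;> linarith

lemma pull (R : List Bool → Prop) (s : ℕ) :
    mu {x | R (pr (D x) s)} ≤ 3 * mu {x | R (pr x s)} := by
  have one : ∀ v, mu {x | num (pr x s) = v} ≤ 2⁻¹ ^ s := fun v => by
    rcases Set.eq_empty_or_nonempty {x | num (pr x s) = v} with e | ⟨y, hy⟩
    · simp [e]
    · refine (measure_mono (t := cyl (pr y s)) fun x k => ?_).trans (by simp [mu_cyl])
      simpa [cyl] using num_inj (k.trans hy.symm)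
  have h1 : {x | R (pr (D x) s)} ⊆ ⋃ u ∈ (range (2 ^ s)).filter fun u => R (pr u.testBit s),
      ⋃ r ∈ range 3, {x | num (pr x s) = 3 * num (pr u.testBit s) + r} := fun x k => by
    obtain ⟨u, u1, u2⟩ := pr_sur (D x) s
    have := D_num x s
    simp only [Set.mem_iUnion, mem_filter, mem_range, Set.mem_ofPred_eq]
    exact ⟨u, ⟨u1, u2 ▸ k⟩, num (pr x s) % 3, by omega, by rw [← u2]; omega⟩
  have h2 : ∀ v, mu (⋃ r ∈ range 3, {x | num (pr x s) = v + r}) ≤ 3 * 2⁻¹ ^ s := fun v =>
    (measure_biUnion_finset_le _ _).trans ((sum_le_sum fun r _ => one _).trans_eq (by simp))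
  refine (measure_mono h1).trans ((measure_biUnion_finset_le _ _).trans
    ((sum_le_sum fun u _ => h2 _).trans_eq ?_))
  rw [mu_clopen, sum_const, nsmul_eq_mul, mul_left_comm]
  rfl

lemma D_mlr {A : ℕ → Bool} (h : MLR A) : MLR (D A) := fun S hS hm => by
  obtain ⟨E, a, b, c⟩ := EO.nf (P := fun n => {x | ∃ s, S (n, pr x s)})
    ⟨S, re_sig hS, fun _ _ => Iff.rfl⟩
  have f := @Computable.fst
  have s := @Computable.snd
  have k : ComputablePred fun z : (ℕ × List Bool) × List Bool => z.2.length = z.1.2.length ∧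
      num z.2 = num z.1.2 / 3 ∧ E (z.1.1 + 2, z.2) :=
    cand (ceq (Computable.list_length.comp s) (Computable.list_length.comp (s.comp f))) (cand
      (ceq (num_c.comp s) (Primrec.nat_div.to_comp.comp (num_c.comp (s.comp f))
        (Computable.const 3))) (cp a ((ad (f.comp f) (Computable.const 2)).pair s)))
  have e : ∀ n x s, (∃ τ : List Bool, τ.length = (pr x s).length ∧ num τ = num (pr x s) / 3 ∧
      E (n + 2, τ)) ↔ E (n + 2, pr (D x) s) := fun n x s =>
    ⟨fun ⟨τ, u, v, w⟩ => by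
      rw [← pr_getD τ, u, pr_len] at v w
      rwa [← num_inj (v.trans (D_num x s).symm)], fun w => ⟨_, by simp, D_num x s, w⟩⟩
  obtain ⟨n, hn⟩ := h _ (sig_re (sig_ex (CeAlg.cs k))) fun n => by
    simp only [e, Set.ofPred_exists]
    rw [Monotone.measure_iUnion (s := fun i => {x | E (n + 2, pr (D x) i)})
      fun i j l x => b _ (D x) l]
    refine iSup_le fun s => (pull (fun τ => E (n + 2, τ)) s).trans ((mul_le_mul' (by norm_num :
      (3 : ℝ≥0∞) ≤ 2 ^ 2) ((measure_mono fun x k => (c _ _).2 ⟨s, k⟩).trans (hm _))).trans_eq ?_)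
    rw [pow_add, mul_left_comm, ← mul_pow, ENNReal.mul_inv_cancel (by simp) (by simp), one_pow,
      mul_one]
  exact ⟨n + 2, fun s z => ((c _ _).1 ⟨s, z⟩).elim fun t w => hn t ((e n A t).2 w)⟩

variable (Γ : List Bool × ℕ →. Bool) (c : ℕ)

/-- The outputs of the reduction are consistent with a multiplication by three. -/
def G (ω : ℕ → Bool) (M : ℕ) : Prop :=
  ∃ a : ℕ → Bool, num (pr a M) / 3 = num (pr ω M) ∧ ∀ n < M - c, a n ∈ Γ (pr ω (n + c), n)

variable {Γ c}

lemma G.mono {ω : ℕ → Bool} {M k : ℕ} : G Γ c ω (M + k) → G Γ c ω M := fun ⟨a, u, v⟩ =>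
  ⟨a, by rw [← num_div a M k, ← num_div ω M k, ← u, Nat.div_div_eq_div_mul, mul_comm,
    Nat.div_div_eq_div_mul], fun n h => v n (by omega)⟩

lemma G.congr {ω ω' : ℕ → Bool} {M : ℕ} (e : pr ω M = pr ω' M) : G Γ c ω M → G Γ c ω' M :=
  fun ⟨a, u, v⟩ => ⟨a, e ▸ u, fun n h => by
    rw [← pr_take ω' (by omega : n + c ≤ M), ← e, pr_take ω (by omega)]
    exact v n h⟩

lemma pr_add (ω : ℕ → Bool) (m k : ℕ) : pr ω (m + k) = pr ω m ++ pr (fun i => ω (m + i)) k := by
  simp [pr, List.range_add]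

lemma bad (τ : List Bool) : ∃ u < 2 ^ (2 * c + 2), ∀ ω, pr ω (τ.length + (2 * c + 2)) =
    τ ++ pr u.testBit (2 * c + 2) → ¬ G Γ c ω (τ.length + (2 * c + 2)) := by
  obtain ⟨m, hm⟩ : ∃ m, τ.length = m := ⟨_, rfl⟩
  let w : Bool → ℕ → Bool := fun b i =>
    if i < m then τ.getD i false else if i < m + 2 * c then decide ((i - m) % 2 = 1) else b
  have h0 : ∀ b, pr (w b) m = τ :=
    fun b => (pr_eq.2 fun i hi => if_pos hi).trans (hm ▸ pr_getD τ)
  have h1 : ∀ b, ∀ j ≤ c, 3 * num (pr (w b) (m + 2 * j)) + 1 = (3 * num τ + 1) * 2 ^ (2 * j) :=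
    fun b j => by
      induction j with
      | zero => simp [h0]
      | succ j ih =>
        intro l
        have u : w b (m + 2 * j) = false := by
          simp only [w]
          rw [if_neg (by omega), if_pos (by omega), decide_eq_false (by omega)]
        have v : w b (m + 2 * j + 1) = true := by
          simp only [w]
          rw [if_neg (by omega), if_pos (by omega), decide_eq_true (by omega)]
        have := ih (by omega)
        rw [mul_add 2 j, mul_one, pow_add, ← mul_assoc, ← this, ← add_assoc, num_succ, num_succ,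
          u, v]
        simp only [Bool.toNat_false, Bool.toNat_true]
        omega
  have h2 : ∀ b, num (pr (w b) (m + (2 * c + 2))) = 4 * num (pr (w b) (m + 2 * c)) + 3 * b.toNat :=
    fun b => by
      have u : ∀ i, w b (m + 2 * c + i) = b := fun i => by
        simp only [w]
        rw [if_neg (by omega), if_neg (by omega)]
      rw [← add_assoc, num_succ, num_succ, u 1, show w b (m + 2 * c) = b from u 0]
      omega
  obtain ⟨b, hb⟩ : ∃ b, ¬ G Γ c (w b) (m + (2 * c + 2)) := by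
    by_contra! z
    obtain ⟨a, a1, a2⟩ := z false
    obtain ⟨a', b1, b2⟩ := z true
    have e : pr a m = pr a' m := pr_eq.2 fun n hn => Part.mem_unique (a2 n (by omega)) (by
      rw [show pr (w false) (n + c) = pr (w true) (n + c) from pr_eq.2 fun i hi => by
        simp only [w]
        split_ifs <;> first | rfl | omega]
      exact b2 n (by omega))
    have e1 := num_div a m (2 * c + 2)
    rw [e, ← num_div a' m (2 * c + 2)] at e1
    have u := h1 false c le_rfl
    have v := h1 true c le_rfl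
    rw [h2] at a1 b1
    simp only [Bool.toNat_false, Bool.toNat_true] at a1 b1
    have p := Nat.two_pow_pos (2 * c + 2)
    have x := (Nat.div_lt_iff_lt_mul p (x := num (pr a (m + (2 * c + 2))))
      (y := 3 * num τ + 1)).2 (by rw [pow_add, ← mul_assoc]; omega)
    have y := (Nat.le_div_iff_mul_le p (y := num (pr a' (m + (2 * c + 2))))
      (x := 3 * num τ + 1)).2 (by rw [pow_add, ← mul_assoc]; omega)
    omega
  obtain ⟨u, u1, u2⟩ := pr_sur (fun i => w b (m + i)) (2 * c + 2)
  exact ⟨u, u1, fun ω e k => hb (hm ▸ k.congr (by rw [e, hm, pr_add (w b), h0, u2]))⟩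

lemma cover (k : ℕ) : ∃ T : Finset (List Bool), #T ≤ (2 ^ (2 * c + 2) - 1) ^ k ∧
    (∀ τ ∈ T, τ.length = k * (2 * c + 2)) ∧
      ∀ ω, G Γ c ω (k * (2 * c + 2)) → pr ω (k * (2 * c + 2)) ∈ T := by
  choose u u1 u2 using bad (Γ := Γ) (c := c)
  induction k with
  | zero => exact ⟨{[]}, by simp, by simp, by simp [pr]⟩
  | succ k ih =>
    obtain ⟨T, t1, t2, t3⟩ := ih
    refine ⟨T.biUnion fun τ => ((range (2 ^ (2 * c + 2))).erase (u τ)).image
      fun v => τ ++ pr v.testBit (2 * c + 2), (card_biUnion_le_card_mul _ _ _ fun τ _ =>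
        card_image_le.trans (card_erase_of_mem (mem_range.2 (u1 τ))).le).trans ?_, ?_, ?_⟩
    · rw [card_range, pow_succ _ k]
      exact Nat.mul_le_mul_right _ t1
    · simp only [mem_biUnion, mem_image]
      rintro _ ⟨τ, a, v, -, rfl⟩
      simp [t2 τ a, add_mul]
    · intro ω h
      rw [add_mul, one_mul] at h ⊢
      obtain ⟨v, v1, v2⟩ := pr_sur (fun i => ω (k * (2 * c + 2) + i)) (2 * c + 2)
      refine mem_biUnion.2 ⟨_, t3 ω h.mono, mem_image.2 ⟨v, mem_erase.2 ⟨fun e => ?_,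
        mem_range.2 v1⟩, by rw [pr_add ω (k * (2 * c + 2)), v2]⟩⟩
      exact u2 (pr ω (k * (2 * c + 2))) ω (by rw [pr_len, pr_add ω, v2, e]) (by rwa [pr_len])

theorem result : ∃ A B : ℕ → Bool,
    (MLR A ∧ LeftCE A) ∧ (MLR B ∧ LeftCE B) ∧ SW A B ∧ ¬ SW B A := by
  obtain ⟨A, a1, a2⟩ := ex_omega
  have f := @Computable.fst
  have s := @Computable.snd
  refine ⟨D A, A, ⟨D_mlr a1, sig_re (((re_sig a2).comp ((ml (Computable.const 3) f).pair s)).of_eq
    fun q => ?_)⟩, ⟨a1, a2⟩, ⟨fun z => Part.some (decide (num z.1 / 3 % 2 = 1)),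
      (ceq (Primrec.nat_mod.to_comp.comp (Primrec.nat_div.to_comp.comp (num_c.comp f)
        (Computable.const 3)) (Computable.const 2)) (Computable.const 1)).decide.partrec, 1,
      fun n => Part.mem_some _⟩, fun ⟨Γ, hΓ, c, hc⟩ => ?_⟩
  · rw [D_val, lt_div_iff₀' (by norm_num : (0 : ℝ) < 3)]
    simp [mul_div_assoc]
  obtain ⟨N, hN⟩ := ((ENNReal.tendsto_pow_atTop_nhds_zero_of_lt_one (r := ((2 ^ (2 * c + 2) - 1 :
    ℕ) : ℝ≥0∞) * 2⁻¹ ^ (2 * c + 2)) (by
      simpa using (dy_lt (2 ^ (2 * c + 2) - 1) 1 (2 * c + 2) 0).2 (by simp))).eventually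
        (ge_mem_nhds (by simp : (0 : ℝ≥0∞) < 2⁻¹))).exists
  have l : Computable fun z : (ℕ × List Bool) × List Bool => z.1.2.length :=
    Computable.list_length.comp (s.comp f)
  have k : Sig 1 (((ℕ × List Bool) × List Bool) × ℕ) fun z =>
      z.1.2.getD z.2 false ∈ Γ (z.1.1.2.take (z.2 + c), z.2) :=
    (graph hΓ).comp (((Primrec.list_take.to_comp.comp (ad s (Computable.const c))
      (s.comp (f.comp f))).pair s).pair ((Primrec.list_getD false).to_comp.comp (s.comp f) s))
  have hS : Sig 1 ((ℕ × List Bool) × List Bool) fun z =>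
      (z.1.2.length = N * z.1.1 * (2 * c + 2) ∧ z.2.length = z.1.2.length ∧
        num z.2 / 3 = num z.1.2) ∧
        ∀ n < z.1.2.length - c, z.2.getD n false ∈ Γ (z.1.2.take (n + c), n) :=
    (CeAlg.cs (cand (ceq l (ml (ml (Computable.const N) (f.comp f)) (Computable.const _))) (cand
      (ceq (Computable.list_length.comp s) l) (ceq (Primrec.nat_div.to_comp.comp (num_c.comp s)
        (Computable.const 3)) (num_c.comp (s.comp f)))))).and (k.ball (sb l (Computable.const c)))
  obtain ⟨n, hn⟩ := D_mlr a1 _ (sig_re (sig_ex hS)) fun n => by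
    obtain ⟨T, t1, t2, t3⟩ := cover (Γ := Γ) (c := c) (N * n)
    refine (measure_mono (t := ⋃ τ ∈ T, cyl τ) ?_).trans ((measure_biUnion_finset_le _ _).trans ?_)
    · rintro x ⟨t, a, ⟨u, v, w⟩, y⟩
      simp only [pr_len] at u v w y
      subst u
      refine Set.mem_iUnion₂.2 ⟨_, t3 x ⟨fun i => a.getD i false, ?_, fun m h => ?_⟩,
        by simp [cyl]⟩
      · rwa [← pr_getD a, v] at w
      · exact pr_take x (by omega : m + c ≤ N * n * (2 * c + 2)) ▸ y m h
    · rw [sum_congr rfl fun τ h => by rw [mu_cyl, t2 τ h], sum_const, nsmul_eq_mul, mul_comm (N * n),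
        pow_mul]
      refine (mul_le_mul_left (Nat.cast_le.2 t1) _).trans ?_
      rw [Nat.cast_pow, ← mul_pow, pow_mul]
      gcongr
  refine hn (N * n * (2 * c + 2)) ⟨pr A (N * n * (2 * c + 2)), ⟨by simp, by simp,
    (D_num _ _).symm⟩, fun m h => ?_⟩
  simp only [pr_len] at h ⊢
  rw [pr_take _ (by omega)]
  convert hc m
  simp [pr, List.getD_eq_getElem?_getD, show m < N * n * (2 * c + 2) by omega]

end Pool.Agent.Results.MP_a2e505_lc.SwStrict
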